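import Mathlib

/-!
# Spans of Galois conjugates grow
-/

namespace Pool.Agent.N612.SO

variable {K : Type} [Field K]

/-- the vector of `2^i`-th powers -/
def conj {ι : Type} (v : ι → K) (i : ℕ) : ι → K := fun x => v x ^ 2 ^ i

theorem conj_conj {ι : Type} (v : ι → K) (i j : ℕ) : conj (conj v i) j = conj v (i + j) := by
  funext x
  simp only [conj, ← pow_mul, ← pow_add]

theorem conj_zero {ι : Type} (v : ι → K) : conj v 0 = v := by
  funext x
  simp [conj]

/-- the exponents used at stage `l` -/
def Good {m : ℕ} (g : Fin m → ℕ) (l : ℕ) (i : ℕ) : Prop :=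
  ∀ j : Fin m, (i % g j = 0 ∨ i % g j = 1) ∧ (l ≤ j.val → i % g j = 0)

/-- the span at stage `l` -/
def stage {m : ℕ} (g : Fin m → ℕ) {ι : Type} (v : ι → K) (l : ℕ) : Submodule K (ι → K) :=
  Submodule.span K {w | ∃ i : ℕ, Good g l i ∧ w = conj v i}

theorem stage_mono {m : ℕ} (g : Fin m → ℕ) {ι : Type} (v : ι → K) {l l' : ℕ} (h : l ≤ l') :
    stage g v l ≤ stage g v l' := by
  apply Submodule.span_mono
  rintro w ⟨i, hi, rfl⟩
  exact ⟨i, fun j => ⟨(hi j).1, fun hj => (hi j).2 (h.trans hj)⟩, rfl⟩

theorem conj_span [CharP K 2] {ι : Type} (n : ℕ) (s : Set (ι → K)) (T : Submodule K (ι → K))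
    (h : ∀ w ∈ s, conj w n ∈ T) : ∀ w ∈ Submodule.span K s, conj w n ∈ T := by
  intro w hw
  induction hw using Submodule.span_induction with
  | mem x hx => exact h x hx
  | zero =>
    have : conj (0 : ι → K) n = 0 := by
      funext x
      simp [conj]
    rw [this]; exact T.zero_mem
  | add x y _ _ hx hy =>
    have : conj (x + y) n = conj x n + conj y n := by
      funext z
      simp only [conj, Pi.add_apply]
      exact add_pow_char_pow (x z) (y z) 2 n
    rw [this]; exact T.add_mem hx hy
  | smul a x _ hx =>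
    have : conj (a • x) n = a ^ 2 ^ n • conj x n := by
      funext z
      simp [conj, mul_pow]
    rw [this]; exact T.smul_mem _ hx

/-- The spans of conjugates increase strictly as long as the functionals separate. -/
theorem lt_of_functionals [CharP K 2] {m k : ℕ} (hm : 0 < m) (g : Fin m → ℕ) (hg : ∀ j, 2 < g j)
    (n : Fin m → ℕ) (hn : ∀ j, n j % g j = 1) (hn' : ∀ j l, l ≠ j → n j % g l = 0)
    (v : Fin k → K) (L : Fin m → ((Fin k → K) →ₗ[K] K))
    (h0 : ∀ j i, (∀ l, i % g l = 0 ∨ i % g l = 1) → L j (conj v i) = 0)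
    (h1 : ∀ j, L j (conj v (2 * n j)) ≠ 0) : m < k := by
  have hker : ∀ j l, stage g v l ≤ LinearMap.ker (L j) := by
    intro j l
    rw [stage, Submodule.span_le]
    rintro w ⟨i, hi, rfl⟩
    exact h0 j i (fun l => (hi l).1)
  have hshift : ∀ (j : Fin m), ∀ w ∈ stage g v j.val, conj w (n j) ∈ stage g v (j.val + 1) := by
    intro j
    apply conj_span
    rintro w ⟨i, hi, rfl⟩
    rw [conj_conj]
    apply Submodule.subset_span
    refine ⟨i + n j, ?_, rfl⟩
    intro l
    by_cases hlj : l = j
    · subst hlj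
      have hi0 := (hi l).2 le_rfl
      have : (i + n l) % g l = 1 := by
        rw [Nat.add_mod, hi0, hn l, zero_add, Nat.mod_eq_of_lt (by have := hg l; omega)]
      refine ⟨Or.inr this, ?_⟩
      intro h; omega
    · have h3 : (i + n j) % g l = i % g l := by
        rw [Nat.add_mod, hn' j l hlj, add_zero, Nat.mod_mod]
      rw [h3]
      refine ⟨(hi l).1, ?_⟩
      intro h
      apply (hi l).2
      omega
  have hlt : ∀ (j : Fin m), stage g v j.val < stage g v (j.val + 1) := by
    intro j
    refine lt_of_le_of_ne (stage_mono g v (Nat.le_succ _)) ?_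
    intro heq
    have hv : v ∈ stage g v j.val := by
      apply Submodule.subset_span
      refine ⟨0, ?_, (conj_zero v).symm⟩
      intro l
      simp
    have h2 := hshift j v hv
    rw [← heq] at h2
    have h3 := hshift j _ h2
    rw [conj_conj, ← heq] at h3
    have h4 := hker j _ h3
    rw [LinearMap.mem_ker] at h4
    apply h1 j
    rw [two_mul]
    exact h4
  have hrank : ∀ l, l ≤ m → l ≤ Module.finrank K (stage g v l) := by
    intro l
    induction l with
    | zero => intro _; exact Nat.zero_le _
    | succ l ih =>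
      intro hl
      have h5 := ih (by omega)
      have h6 := Submodule.finrank_lt_finrank_of_lt (hlt ⟨l, by omega⟩)
      simp only at h6
      omega
  have h7 := hrank m le_rfl
  have h8 : stage g v m < ⊤ := by
    rw [lt_top_iff_ne_top]
    intro htop
    have h9 := hker ⟨0, hm⟩ m
    rw [htop] at h9
    apply h1 ⟨0, hm⟩
    have : conj v (2 * n ⟨0, hm⟩) ∈ LinearMap.ker (L ⟨0, hm⟩) := h9 trivial
    exact this
  have h10 := Submodule.finrank_lt h8.ne
  rw [Module.finrank_fin_fun] at h10
  omega

end Pool.Agent.N612.SO
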