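import Mathlib

/-!
# Local constraints, local characterizations and single-orbit characterizations

`F` is the field of values and `K` the (larger) field which is the domain of the functions.
-/

namespace Pool.Agent.N612.SO

/-- A `k`-local constraint `C = (α_1, …, α_k; S)`: points `α_i ∈ K` and a proper subset `S` of
`F^k`. -/
structure LocalConstraint (F K : Type) (k : ℕ) where
  /-- the points `α_1, …, α_k` -/
  point : Fin k → K
  /-- the set `S` -/
  allowed : Set (Fin k → F)
  /-- `S ⊊ F^k` -/
  proper : allowed ≠ Set.univ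

/-- `f` satisfies `C = (α_1, …, α_k; S)` iff `(f(α_1), …, f(α_k)) ∈ S`. -/
def LocalConstraint.SatisfiedBy {F K : Type} {k : ℕ} (C : LocalConstraint F K k) (f : K → F) :
    Prop :=
  (fun i => f (C.point i)) ∈ C.allowed

/-- The constraint `C ∘ π = (π(α_1), …, π(α_k); S)` for the affine map `π(x) = a x + b`. -/
def LocalConstraint.comp {F K : Type} [Field K] {k : ℕ} (C : LocalConstraint F K k) (a b : K) :
    LocalConstraint F K k where
  point := fun i => a * C.point i + b
  allowed := C.allowed
  proper := C.proper

/-- A property `P ⊆ {K → F}` is affine-invariant if it is an `F`-linear subspace and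
`x ↦ f (a x + b)` is in `P` for all `f ∈ P`, `a ∈ K^*`, `b ∈ K`. -/
def AffineInvariant {F K : Type} [Field F] [Field K] (P : Set (K → F)) : Prop :=
  (∃ V : Submodule F (K → F), (V : Set (K → F)) = P) ∧
    ∀ f ∈ P, ∀ a b : K, a ≠ 0 → (fun x => f (a * x + b)) ∈ P

/-- `P` has a `k`-local characterization: for some set of `k`-local constraints, `f ∈ P` exactly
when `f` satisfies all of them. -/
def HasLocalCharacterization {F K : Type} (k : ℕ) (P : Set (K → F)) : Prop :=
  ∃ 𝒞 : Set (LocalConstraint F K k), ∀ f : K → F, f ∈ P ↔ ∀ C ∈ 𝒞, C.SatisfiedBy f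

/-- `P` has a `k`-single orbit characterization: for a single `k`-local constraint `C`, `f ∈ P`
exactly when `f` satisfies `C ∘ π` for all affine maps `π(x) = a x + b`, `a ≠ 0`. -/
def HasSingleOrbitCharacterization {F K : Type} [Field K] (k : ℕ) (P : Set (K → F)) : Prop :=
  ∃ C : LocalConstraint F K k, ∀ f : K → F,
    f ∈ P ↔ ∀ a b : K, a ≠ 0 → (C.comp a b).SatisfiedBy f

end Pool.Agent.N612.SO
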