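import Mathlib

/-!
# Six points of a subfield with vanishing first and third power sums
-/

namespace Pool.Agent.N612.SO

variable {K : Type} [Field K]

theorem pow_iter {x : K} {a : ℕ} (h : x ^ 2 ^ a = x) (b : ℕ) : x ^ 2 ^ (a * b) = x := by
  induction b with
  | zero => simp
  | succ b ih => rw [Nat.mul_succ, pow_add, pow_mul, ih, h]

theorem pow_mod {x : K} {g : ℕ} (h : x ^ 2 ^ g = x) (i : ℕ) : x ^ 2 ^ i = x ^ 2 ^ (i % g) := by
  conv_lhs => rw [← Nat.div_add_mod i g, pow_add, pow_mul, pow_iter h]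

/-- an element of order `2^g - 1` -/
theorem exists_elt [Fintype K] {t g : ℕ} (hK : Fintype.card K = 2 ^ t) (hg : g ∣ t) (ht : 0 < t)
    (hg2 : 2 ≤ g) : ∃ z : K, z ^ 2 ^ g = z ∧ z ≠ 0 ∧ z ≠ 1 := by
  classical
  obtain ⟨ζ, hζ⟩ := IsCyclic.exists_generator (α := Kˣ)
  have hord : orderOf ζ = 2 ^ t - 1 := by
    rw [orderOf_eq_card_of_forall_mem_zpowers hζ, Nat.card_eq_fintype_card, Fintype.card_units, hK]
  have hdvd : 2 ^ g - 1 ∣ 2 ^ t - 1 := Nat.pow_sub_one_dvd_pow_sub_one 2 hg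
  obtain ⟨e, he⟩ := hdvd
  have hpos : 0 < 2 ^ t - 1 := by
    have : 2 ^ 1 ≤ 2 ^ t := Nat.pow_le_pow_right (by norm_num) ht
    omega
  have he0 : e ≠ 0 := by
    rintro rfl
    simp at he
    omega
  have h4 : 4 ≤ 2 ^ g := by
    calc 4 = 2 ^ 2 := by norm_num
      _ ≤ 2 ^ g := Nat.pow_le_pow_right (by norm_num) hg2
  have hord2 : orderOf (ζ ^ e) = 2 ^ g - 1 := by
    rw [orderOf_pow' ζ he0, hord, he, Nat.gcd_mul_left_left, Nat.mul_div_cancel _ (Nat.pos_of_ne_zero he0)]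
  refine ⟨((ζ ^ e : Kˣ) : K), ?_, Units.ne_zero _, ?_⟩
  · have h1 : (ζ ^ e) ^ (2 ^ g - 1) = 1 := by rw [← hord2]; exact pow_orderOf_eq_one _
    have h2 : (ζ ^ e) ^ (2 ^ g) = ζ ^ e := by
      conv_lhs => rw [show 2 ^ g = (2 ^ g - 1) + 1 by omega]
      rw [pow_succ, h1, one_mul]
    exact_mod_cast congrArg Units.val h2
  · intro h
    have : (ζ ^ e : Kˣ) = 1 := by
      apply Units.ext
      simpa using h
    rw [this, orderOf_one] at hord2
    omega

theorem exists_word [Fintype K] [CharP K 2] {t g : ℕ} (hK : Fintype.card K = 2 ^ t) (hg : g ∣ t)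
    (ht : 0 < t) (hgp : g.Prime) (hg5 : 5 ≤ g) :
    ∃ y : Fin 6 → K, (∀ i, y i ^ 2 ^ g = y i) ∧ ∑ i, y i = 0 ∧ ∑ i, y i ^ 3 = 0 ∧
      ∑ i, y i ^ 5 ≠ 0 := by
  obtain ⟨z, hz, hz0, hz1⟩ := exists_elt hK hg ht (by omega)
  have h2 : (2 : K) = 0 := CharTwo.two_eq_zero
  have hodd : g % 2 = 1 := by
    rcases hgp.eq_two_or_odd with h | h
    · omega
    · exact h
  have h3 : g % 3 ≠ 0 := by
    intro h
    have : 3 ∣ g := Nat.dvd_of_mod_eq_zero h
    rw [Nat.prime_dvd_prime_iff_eq Nat.prime_three hgp] at this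
    omega
  -- the cube root
  obtain ⟨s, hs⟩ : ∃ s, s = z ^ 2 + z := ⟨_, rfl⟩
  have hs0 : s ≠ 0 := by
    rw [hs]
    intro h
    have : z * (z + 1) = 0 := by linear_combination h
    rcases mul_eq_zero.1 this with h | h
    · exact hz0 h
    · apply hz1
      linear_combination h - h2
  have hsg : s ^ 2 ^ g = s := by
    rw [hs, add_pow_char_pow, ← pow_mul, mul_comm 2, pow_mul, hz]
  have hs1 : s ^ (2 ^ g - 1) = 1 := by
    have h4 : s * s ^ (2 ^ g - 1) = s * 1 := by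
      rw [← pow_succ', Nat.sub_add_cancel Nat.one_le_two_pow, hsg, mul_one]
    exact mul_left_cancel₀ hs0 h4
  obtain ⟨e, he⟩ : ∃ e, 3 * e = 2 * (2 ^ g - 1) + 1 := by
    obtain ⟨k, hk⟩ : ∃ k, g = 2 * k + 1 := ⟨g / 2, by omega⟩
    have : ∀ k : ℕ, ∃ e, 3 * e = 2 * (2 ^ (2 * k + 1) - 1) + 1 := by
      intro k
      induction k with
      | zero => exact ⟨1, by norm_num⟩
      | succ k ih =>
        obtain ⟨e, he⟩ := ih
        have h5 : 1 ≤ 2 ^ (2 * k + 1) := Nat.one_le_two_pow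
        refine ⟨4 * e + 1, ?_⟩
        have h6 : 2 ^ (2 * (k + 1) + 1) = 4 * 2 ^ (2 * k + 1) := by ring
        omega
    rw [hk]
    exact this k
  obtain ⟨c, hc⟩ : ∃ c, c = (s ^ e)⁻¹ := ⟨_, rfl⟩
  have hc0 : c ≠ 0 := by
    rw [hc]; exact inv_ne_zero (pow_ne_zero _ hs0)
  have hcg : c ^ 2 ^ g = c := by
    rw [hc, inv_pow, ← pow_mul, mul_comm e, pow_mul, hsg]
  have hc3 : c ^ 3 * s = 1 := by
    have : s ^ (3 * e) = s := by
      rw [he, pow_succ, mul_comm 2, pow_mul, hs1, one_pow, one_mul]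
    rw [hc, inv_pow, ← pow_mul, mul_comm e, this, inv_mul_cancel₀ hs0]
  -- the three points
  obtain ⟨a, ha⟩ : ∃ a, a = c := ⟨_, rfl⟩
  obtain ⟨b, hb⟩ : ∃ b, b = z * c := ⟨_, rfl⟩
  have hab : a * b * (a + b) = 1 := by
    rw [ha, hb, ← hc3, hs]; ring
  have hag : a ^ 2 ^ g = a := by rw [ha, hcg]
  have hbg : b ^ 2 ^ g = b := by rw [hb, mul_pow, hz, hcg]
  have ha0 : a ≠ 0 := by rw [ha]; exact hc0
  have hb0 : b ≠ 0 := by rw [hb]; exact mul_ne_zero hz0 hc0
  have habne : a ≠ b := by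
    intro h
    rw [h] at hab
    have : b + b = 0 := by linear_combination b * h2
    rw [this, mul_zero] at hab
    exact zero_ne_one hab
  -- elements fixed by `x ↦ x^4` or `x ↦ x^8`
  have key4 : ∀ x : K, x ^ 2 ^ g = x → x ^ 2 ^ 2 = x → x ^ 2 = x := by
    intro x hx h4
    have := pow_mod h4 g
    rw [hx, hodd] at this
    rw [pow_one] at this
    exact this.symm
  have key8 : ∀ x : K, x ^ 2 ^ g = x → x ^ 2 ^ 3 = x → x ^ 2 = x := by
    intro x hx h8
    have h7 := pow_mod h8 g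
    rw [hx] at h7
    have : g % 3 = 1 ∨ g % 3 = 2 := by omega
    rcases this with h | h
    · rw [h, pow_one] at h7
      exact h7.symm
    · rw [h] at h7
      exact key4 x hx h7.symm
  have sq_eq : ∀ x : K, x ≠ 0 → x ^ 2 = x → x = 1 := by
    intro x hx h
    have : x * x = x * 1 := by rw [mul_one, ← pow_two, h]
    exact mul_left_cancel₀ hx this
  -- the second elementary symmetric function
  obtain ⟨E, hE⟩ : ∃ E, E = a ^ 2 + a * b + b ^ 2 := ⟨_, rfl⟩
  have hra : a ^ 3 + E * a + 1 = 0 := by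
    rw [hE]
    linear_combination hab + (a ^ 3 + 1) * h2
  have hrb : b ^ 3 + E * b + 1 = 0 := by
    rw [hE]
    linear_combination hab + (b ^ 3 + 1) * h2
  have hE0 : E ≠ 0 := by
    intro h
    rw [h] at hra hrb
    have h5 : ∀ x : K, x ≠ 0 → x ^ 2 ^ g = x → x ^ 3 + 0 * x + 1 = 0 → x = 1 := by
      intro x hx hxg hx3
      apply sq_eq x hx
      apply key4 x hxg
      have : x ^ 3 = 1 := by linear_combination hx3 - h2
      calc x ^ 2 ^ 2 = x ^ 3 * x := by ring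
        _ = x := by rw [this, one_mul]
    have h6 := h5 a ha0 hag hra
    have h7 := h5 b hb0 hbg hrb
    exact habne (h6.trans h7.symm)
  have hE1 : E ≠ 1 := by
    intro h
    rw [h] at hra
    have h5 : a ^ 3 = a + 1 := by linear_combination hra - (a + 1) * h2
    have h6 : a ^ 2 ^ 3 = a := by
      calc a ^ 2 ^ 3 = a ^ 3 * a ^ 3 * a ^ 2 := by ring
        _ = (a + 1) * (a + 1) * a ^ 2 := by rw [h5]
        _ = a ^ 3 * a + a ^ 2 + 2 * a ^ 3 := by ring
        _ = (a + 1) * a + a ^ 2 + 2 * a ^ 3 := by rw [h5]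
        _ = a := by linear_combination (a ^ 3 + a ^ 2) * h2
    have h7 := sq_eq a ha0 (key8 a hag h6)
    rw [h7] at h5
    have : (1 : K) = 0 := by linear_combination h5 + h2
    exact one_ne_zero this
  refine ⟨![a, b, a + b, a ^ 2, b ^ 2, (a + b) ^ 2], ?_, ?_, ?_, ?_⟩
  · have hsum : (a + b) ^ 2 ^ g = a + b := by rw [add_pow_char_pow, hag, hbg]
    have hsq : ∀ x : K, x ^ 2 ^ g = x → (x ^ 2) ^ 2 ^ g = x ^ 2 := by
      intro x hx
      rw [← pow_mul, mul_comm 2, pow_mul, hx]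
    intro i
    fin_cases i
    · exact hag
    · exact hbg
    · exact hsum
    · exact hsq a hag
    · exact hsq b hbg
    · exact hsq _ hsum
  · simp only [Fin.sum_univ_succ, Fin.sum_univ_zero]
    simp
    linear_combination (a + b + a ^ 2 + b ^ 2 + a * b) * h2
  · simp only [Fin.sum_univ_succ, Fin.sum_univ_zero]
    simp
    linear_combination (3 + 15 * (a * b * (a + b) + 1)) * hab +
      (a ^ 3 + b ^ 3 + a ^ 6 + 3 * a ^ 5 * b - 5 * a ^ 3 * b ^ 3 + 3 * a * b ^ 5 + b ^ 6 + 9) * h2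
  · simp only [Fin.sum_univ_succ, Fin.sum_univ_zero]
    simp
    intro h
    have hS5 : a ^ 5 + b ^ 5 + (a + b) ^ 5 = E := by
      rw [hE]
      linear_combination (5 * (a ^ 2 + a * b + b ^ 2)) * hab +
        (2 * (a ^ 2 + a * b + b ^ 2) + a ^ 5 + b ^ 5) * h2
    have hEE : E * (E + 1) = 0 := by
      rw [← hS5]
      linear_combination h + (a ^ 5 * b ^ 5 + (a ^ 5 + b ^ 5) * (a + b) ^ 5) * h2
    rcases mul_eq_zero.1 hEE with h | h
    · exact hE0 h
    · apply hE1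
      linear_combination h - h2

end Pool.Agent.N612.SO
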