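import Pool.Agent.N612.SO.Defs
import Pool.Agent.N612.SO.Chain
import Pool.Agent.N612.SO.Word

/-!
# Affine-invariant properties with a 6-local characterization whose single-orbit characterizations
have unbounded locality
-/

set_option linter.unusedSectionVars false

namespace Pool.Agent.N612.SO

variable {K : Type} [Field K] [Fintype K] [CharP K 2] [Algebra (ZMod 2) K]

/-- the property defined by the words `y j` -/
def prop {m : ℕ} (y : Fin m → Fin 6 → K) : Set (K → ZMod 2) :=
  {f | ∀ j, ∀ a b : K, a ≠ 0 → ∑ i, f (a * y j i + b) = 0}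

/-- the property as a submodule -/
def propSub {m : ℕ} (y : Fin m → Fin 6 → K) : Submodule (ZMod 2) (K → ZMod 2) where
  carrier := prop y
  add_mem' := by
    intro f g hf hg j a b ha
    simp only [Pi.add_apply, Finset.sum_add_distrib]
    rw [hf j a b ha, hg j a b ha, add_zero]
  zero_mem' := by
    intro j a b _
    simp
  smul_mem' := by
    intro c f hf j a b ha
    simp only [Pi.smul_apply, ← Finset.smul_sum]
    rw [hf j a b ha, smul_zero]

theorem affineInvariant_prop {m : ℕ} (y : Fin m → Fin 6 → K) :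
    AffineInvariant (prop y : Set (K → ZMod 2)) := by
  refine ⟨⟨propSub y, rfl⟩, ?_⟩
  intro f hf c d hc j a b ha
  have h := hf j (c * a) (c * b + d) (mul_ne_zero hc ha)
  rw [← h]
  apply Finset.sum_congr rfl
  intro i _
  change f (c * (a * y j i + b) + d) = f (c * a * y j i + (c * b + d))
  congr 1
  ring

theorem hasLocal_prop {m : ℕ} (y : Fin m → Fin 6 → K) :
    HasLocalCharacterization 6 (prop y : Set (K → ZMod 2)) := by
  have hproper : {v : Fin 6 → ZMod 2 | ∑ i, v i = 0} ≠ Set.univ := by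
    intro h
    have h1 : (Pi.single 0 1 : Fin 6 → ZMod 2) ∈ {v : Fin 6 → ZMod 2 | ∑ i, v i = 0} := by
      rw [h]; trivial
    rw [Set.mem_ofPred_eq] at h1
    simp at h1
  refine ⟨{C | ∃ j, ∃ a b : K, a ≠ 0 ∧ C = ⟨fun i => a * y j i + b, _, hproper⟩}, ?_⟩
  intro f
  constructor
  · rintro hf C ⟨j, a, b, ha, rfl⟩
    exact hf j a b ha
  · intro h j a b ha
    exact h _ ⟨j, a, b, ha, rfl⟩

theorem hasSingle_prop {m : ℕ} (y : Fin m → Fin 6 → K) (hne : prop y ≠ Set.univ) :
    ∃ k, HasSingleOrbitCharacterization k (prop y : Set (K → ZMod 2)) := by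
  classical
  refine ⟨Fintype.card K, ⟨fun i => (Fintype.equivFin K).symm i,
    {v | (fun x => v (Fintype.equivFin K x)) ∈ prop y}, ?_⟩, ?_⟩
  · intro h
    apply hne
    ext f
    simp only [Set.mem_univ, iff_true]
    have h1 : (fun i => f ((Fintype.equivFin K).symm i)) ∈
        {v : Fin (Fintype.card K) → ZMod 2 | (fun x => v (Fintype.equivFin K x)) ∈ prop y} := by
      rw [h]; trivial
    rw [Set.mem_ofPred_eq] at h1
    simpa using h1
  · intro f
    simp only [LocalConstraint.SatisfiedBy, LocalConstraint.comp, Set.mem_ofPred_eq,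
      Equiv.symm_apply_apply]
    constructor
    · intro hf a b ha
      exact (affineInvariant_prop y).2 f hf a b ha
    · intro h
      simpa using h 1 0 one_ne_zero

/-- the trace -/
noncomputable abbrev Tr (x : K) : ZMod 2 := Algebra.trace (ZMod 2) K x

theorem exists_trace_ne {D : K} (hD : D ≠ 0) : ∃ a : K, Tr (a * D) ≠ 0 := by
  have hnd := traceForm_nondegenerate (ZMod 2) K
  by_contra hcon
  push Not at hcon
  apply hD
  apply hnd.2
  intro a
  have := hcon a
  rwa [Algebra.traceForm_apply]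

theorem eq_zero_of_trace {D : K} (h : ∀ a : K, Tr (a * D) = 0) : D = 0 := by
  by_contra hD
  obtain ⟨a, ha⟩ := exists_trace_ne hD
  exact ha (h a)

/-- the quadratic function `x ↦ Tr (a x^(1 + 2^i))` -/
noncomputable def quad (a : K) (i : ℕ) : K → ZMod 2 := fun x => Tr (a * (x * x ^ 2 ^ i))

theorem const_mem {m : ℕ} (y : Fin m → Fin 6 → K) (c : ZMod 2) : (fun _ => c) ∈ prop y := by
  intro j a b _
  rw [Finset.sum_const, Finset.card_univ, Fintype.card_fin]
  have h6 : (6 : ZMod 2) = 0 := by decide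
  rw [nsmul_eq_mul]
  push_cast
  rw [h6, zero_mul]

omit [Fintype K] in
theorem sum_affine {y : Fin 6 → K} (hy : ∑ i, y i = 0) (a b : K) : ∑ i, (a * y i + b) = 0 := by
  rw [Finset.sum_add_distrib, ← Finset.mul_sum, hy, mul_zero, Finset.sum_const, Finset.card_univ,
    Fintype.card_fin, nsmul_eq_mul]
  push_cast
  linear_combination (3 * b) * (CharTwo.two_eq_zero : (2 : K) = 0)

theorem lin_mem {m : ℕ} (y : Fin m → Fin 6 → K) (hy : ∀ j, ∑ i, y j i = 0) (c : K) (q : ℕ) :
    (fun x => Tr (c * x ^ 2 ^ q)) ∈ prop y := by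
  intro j a b _
  rw [← map_sum, ← Finset.mul_sum, ← sum_pow_char_pow, sum_affine (hy j)]
  simp

omit [Fintype K] in
theorem sum_quad {y : Fin 6 → K} (hy : ∑ i, y i = 0) (a b : K) (q : ℕ) :
    ∑ i, (a * y i + b) * (a * y i + b) ^ 2 ^ q = a * a ^ 2 ^ q * ∑ i, y i * y i ^ 2 ^ q := by
  have h1 : ∀ i, (a * y i + b) * (a * y i + b) ^ 2 ^ q =
      a * a ^ 2 ^ q * (y i * y i ^ 2 ^ q) + a * b ^ 2 ^ q * y i + b * a ^ 2 ^ q * y i ^ 2 ^ q
        + b * b ^ 2 ^ q := by
    intro i
    rw [add_pow_char_pow, mul_pow]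
    ring
  simp only [h1, Finset.sum_add_distrib, ← Finset.mul_sum]
  rw [← sum_pow_char_pow, hy, Finset.sum_const, Finset.card_univ, Fintype.card_fin, nsmul_eq_mul]
  have h2 : (2 : K) = 0 := CharTwo.two_eq_zero
  have h3 : (0 : K) ^ 2 ^ q = 0 := by simp
  rw [h3]
  push_cast
  linear_combination (3 * (b * b ^ 2 ^ q)) * h2

theorem quad_mem {m : ℕ} (g : Fin m → ℕ) (y : Fin m → Fin 6 → K)
    (hy1 : ∀ j, ∑ i, y j i = 0) (hy3 : ∀ j, ∑ i, y j i ^ 3 = 0)
    (hyg : ∀ j i, y j i ^ 2 ^ g j = y j i) (c : K) (q : ℕ)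
    (hq : ∀ j, q % g j = 0 ∨ q % g j = 1) : quad c q ∈ prop y := by
  intro j a b _
  simp only [quad]
  rw [← map_sum, ← Finset.mul_sum, sum_quad (hy1 j)]
  have h1 : ∑ i, y j i * y j i ^ 2 ^ q = 0 := by
    rcases hq j with h | h
    · have h2 : ∀ i, y j i * y j i ^ 2 ^ q = y j i ^ 2 := by
        intro i
        rw [pow_mod (hyg j i), h]
        ring
      simp only [h2]
      rw [← sum_pow_char, hy1 j]
      simp
    · have h2 : ∀ i, y j i * y j i ^ 2 ^ q = y j i ^ 3 := by
        intro i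
        rw [pow_mod (hyg j i), h]
        ring
      simp only [h2]
      exact hy3 j
  rw [h1]
  simp

theorem quad_notMem {m : ℕ} (g : Fin m → ℕ) (y : Fin m → Fin 6 → K)
    (hyg : ∀ j i, y j i ^ 2 ^ g j = y j i) (j : Fin m) (hy5 : ∑ i, y j i ^ 5 ≠ 0) (q : ℕ)
    (hq : q % g j = 2) : ∃ c, quad c q ∉ prop y := by
  obtain ⟨c, hc⟩ := exists_trace_ne hy5
  refine ⟨c, ?_⟩
  intro h
  apply hc
  have h1 := h j 1 0 one_ne_zero
  simp only [quad, one_mul, add_zero] at h1
  rw [← map_sum, ← Finset.mul_sum] at h1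
  have h2 : ∀ i, y j i * y j i ^ 2 ^ q = y j i ^ 5 := by
    intro i
    rw [pow_mod (hyg j i), hq]
    ring
  simp only [h2] at h1
  exact h1

/-- The dual word produced by a single orbit characterization. -/
theorem exists_functional {m k : ℕ} (g : Fin m → ℕ) (y : Fin m → Fin 6 → K)
    (hy1 : ∀ j, ∑ i, y j i = 0) (hy3 : ∀ j, ∑ i, y j i ^ 3 = 0)
    (hyg : ∀ j i, y j i ^ 2 ^ g j = y j i) (j : Fin m) (hy5 : ∑ i, y j i ^ 5 ≠ 0) (q : ℕ)
    (hq : q % g j = 2) (C : LocalConstraint (ZMod 2) K k)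
    (hC : ∀ f : K → ZMod 2, f ∈ prop y ↔ ∀ a b : K, a ≠ 0 → (C.comp a b).SatisfiedBy f) :
    ∃ L : (Fin k → K) →ₗ[K] K, (∀ i, (∀ l, i % g l = 0 ∨ i % g l = 1) → L (conj C.point i) = 0) ∧
      L (conj C.point q) ≠ 0 := by
  classical
  obtain ⟨c, hc⟩ := quad_notMem g y hyg j hy5 q hq
  rw [hC] at hc
  push Not at hc
  obtain ⟨a, b, ha, hab⟩ := hc
  -- the restriction map
  let R : (K → ZMod 2) →ₗ[ZMod 2] (Fin k → ZMod 2) := LinearMap.funLeft (ZMod 2) (ZMod 2) C.point
  let V : Submodule (ZMod 2) (Fin k → ZMod 2) := (propSub y).map R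
  have hR : ∀ f, R f = fun i => f (C.point i) := fun f => rfl
  let c' : K := c * (a * a ^ 2 ^ q)
  have hv : R (quad c' q) ∉ V := by
    rintro ⟨f, hf, hfR⟩
    apply hab
    -- the remaining part
    let r : K → ZMod 2 := fun x => Tr ((c * (a * b ^ 2 ^ q)) * x ^ 2 ^ 0) +
      Tr ((c * (b * a ^ 2 ^ q)) * x ^ 2 ^ q) + Tr (c * (b * b ^ 2 ^ q))
    have hr : r ∈ propSub y := by
      apply (propSub y).add_mem
      · apply (propSub y).add_mem
        · exact lin_mem y hy1 _ 0
        · exact lin_mem y hy1 _ q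
      · exact const_mem y _
    have hfr : f + r ∈ prop y := (propSub y).add_mem hf hr
    rw [hC] at hfr
    have h1 := hfr 1 0 one_ne_zero
    unfold LocalConstraint.SatisfiedBy LocalConstraint.comp at h1 ⊢
    simp only [one_mul, add_zero] at h1
    convert h1 using 1
    funext i
    have h2 : f (C.point i) = quad c' q (C.point i) := by
      have := congrFun hfR i
      simpa [hR] using this
    simp only [Pi.add_apply, h2, r, quad]
    rw [← map_add, ← map_add, ← map_add]
    congr 1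
    rw [add_pow_char_pow, mul_pow]
    simp only [c']
    ring
  obtain ⟨φ, hφ1, hφ2⟩ := Submodule.exists_dual_map_eq_bot_of_notMem hv inferInstance
  have hφV : ∀ f ∈ prop y, φ (R f) = 0 := by
    intro f hf
    have : φ (R f) ∈ V.map φ := ⟨R f, ⟨f, hf, rfl⟩, rfl⟩
    rw [hφ2] at this
    exact this
  have hφe : ∀ w, φ w = ∑ i, w i * φ (Pi.single i 1) := by
    intro w
    rw [LinearMap.pi_apply_eq_sum_univ φ w]
    apply Finset.sum_congr rfl
    intro i _
    rw [smul_eq_mul]
    congr 2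
    funext l
    by_cases h : i = l
    · subst h; simp
    · rw [if_neg h, Pi.single_eq_of_ne (Ne.symm h)]
  let L : (Fin k → K) →ₗ[K] K := ∑ i, (algebraMap (ZMod 2) K (φ (Pi.single i 1)) * C.point i) •
    LinearMap.proj i
  have hL : ∀ w, L w = ∑ i, algebraMap (ZMod 2) K (φ (Pi.single i 1)) * C.point i * w i := by
    intro w
    simp [L]
  have hLq : ∀ (e : K) (i : ℕ), Tr (e * L (conj C.point i)) = φ (R (quad e i)) := by
    intro e i
    rw [hL, Finset.mul_sum, hφe]
    change Algebra.trace (ZMod 2) K _ = _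
    rw [map_sum]
    apply Finset.sum_congr rfl
    intro l _
    rw [hR]
    simp only [quad, conj]
    have h3 : e * (algebraMap (ZMod 2) K (φ (Pi.single l 1)) * C.point l * C.point l ^ 2 ^ i) =
        (φ (Pi.single l 1)) • (e * (C.point l * C.point l ^ 2 ^ i)) := by
      rw [Algebra.smul_def]; ring
    rw [h3]
    simp only [Tr]
    rw [map_smul, smul_eq_mul, mul_comm]
  refine ⟨L, ?_, ?_⟩
  · intro i hi
    apply eq_zero_of_trace
    intro e
    rw [hLq]
    exact hφV _ (quad_mem g y hy1 hy3 hyg e i hi)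
  · intro h
    apply hφ1
    rw [← hLq, h, mul_zero]
    simp

/-- simultaneous congruences -/
theorem exists_shift {m : ℕ} (g : Fin m → ℕ) (hgp : ∀ j, (g j).Prime) (hinj : Function.Injective g)
    (j : Fin m) : ∃ n, n % g j = 1 ∧ ∀ l, l ≠ j → n % g l = 0 := by
  classical
  have hcop : Nat.Coprime (∏ l ∈ Finset.univ.erase j, g l) (g j) := by
    apply Nat.Coprime.prod_left
    intro l hl
    rw [Nat.coprime_primes (hgp l) (hgp j)]
    intro h
    exact (Finset.mem_erase.1 hl).1 (hinj h)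
  obtain ⟨u, _, hu⟩ := Nat.exists_mul_mod_eq_one_of_coprime hcop (hgp j).one_lt
  refine ⟨_, hu, ?_⟩
  intro l hl
  apply Nat.mod_eq_zero_of_dvd
  apply Dvd.dvd.mul_right
  exact Finset.dvd_prod_of_mem g (Finset.mem_erase.2 ⟨hl, Finset.mem_univ l⟩)

/-- For distinct primes `g_1, …, g_m ≥ 5` and a field `K` with `2^(g_1 ⋯ g_m)` elements there is an
affine-invariant property with a `6`-local characterization, all of whose single orbit
characterizations have locality greater than `m`. -/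
theorem main {m : ℕ} (hm : 0 < m) (g : Fin m → ℕ) (hgp : ∀ j, (g j).Prime) (hg5 : ∀ j, 5 ≤ g j)
    (hinj : Function.Injective g) (hK : Fintype.card K = 2 ^ ∏ j, g j) :
    ∃ P : Set (K → ZMod 2), AffineInvariant P ∧ HasLocalCharacterization 6 P ∧
      (∃ k, HasSingleOrbitCharacterization k P) ∧
      ∀ k, HasSingleOrbitCharacterization k P → m < k := by
  have ht : 0 < ∏ j, g j := Finset.prod_pos (fun j _ => (hgp j).pos)
  have hword : ∀ j, ∃ y : Fin 6 → K, (∀ i, y i ^ 2 ^ g j = y i) ∧ ∑ i, y i = 0 ∧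
      ∑ i, y i ^ 3 = 0 ∧ ∑ i, y i ^ 5 ≠ 0 := fun j =>
    exists_word hK (Finset.dvd_prod_of_mem g (Finset.mem_univ j)) ht (hgp j) (hg5 j)
  choose y hyg hy1 hy3 hy5 using hword
  choose n hn hn' using exists_shift g hgp hinj
  have h2n : ∀ j, (2 * n j) % g j = 2 := by
    intro j
    rw [Nat.mul_mod, hn j, mul_one, Nat.mod_mod, Nat.mod_eq_of_lt (by have := hg5 j; omega)]
  refine ⟨prop y, affineInvariant_prop y, hasLocal_prop y, ?_, ?_⟩
  · apply hasSingle_prop
    intro h
    obtain ⟨c, hc⟩ := quad_notMem g y hyg ⟨0, hm⟩ (hy5 _) (2 * n ⟨0, hm⟩) (h2n _)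
    rw [h] at hc
    exact hc trivial
  · rintro k ⟨C, hC⟩
    have hfun : ∀ j, ∃ L : (Fin k → K) →ₗ[K] K,
        (∀ i, (∀ l, i % g l = 0 ∨ i % g l = 1) → L (conj C.point i) = 0) ∧
        L (conj C.point (2 * n j)) ≠ 0 := fun j =>
      exists_functional g y hy1 hy3 hyg j (hy5 j) _ (h2n j) C hC
    choose L hL0 hL1 using hfun
    exact lt_of_functionals hm g (fun j => by have := hg5 j; omega) n hn hn' C.point L hL0 hL1

end Pool.Agent.N612.SO
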